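import Pool.Agent.Helper96.LC.Stmts

/-! Row BLK of the sheet `Pool.Agent.Helper96.LC.Stmts` (from PATH). -/

set_option autoImplicit false

namespace Pool.Agent.Helper96.LC

open Pool.Agent.Helper44.Lag

namespace BLK92

lemma nn_ge {y : ℝ} {z : ℤ} (h : |y - z| ≤ 1 / 2) : |y - z| ≤ nn y := by
  unfold nn
  by_cases hr : round y = z
  · rw [hr]
  · have h1 : (1 : ℝ) ≤ |(round y : ℝ) - z| := by
      have : (1 : ℤ) ≤ |round y - z| := Int.one_le_abs (sub_ne_zero.2 hr)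
      exact_mod_cast this
    have h2 : |(round y : ℝ) - z| ≤ |y - round y| + |y - z| := by
      have := abs_sub_le (round y : ℝ) y z
      rwa [abs_sub_comm (round y : ℝ) y] at this
    linarith

/-- the padded sequence -/
noncomputable def EE (θ : ℝ) (m l : ℕ) (e : ℕ → ℝ) (n : ℕ) : ℝ :=
  if n ≤ m then θ ^ (m - n) * e 0 else if n ≤ m + l then e (n - m) else 0

lemma EE1 (θ : ℝ) (m l : ℕ) (e : ℕ → ℝ) (n : ℕ) (h : n ≤ m) :
    EE θ m l e n = θ ^ (m - n) * e 0 := if_pos h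

lemma EE2 (θ : ℝ) (m l : ℕ) (e : ℕ → ℝ) (k : ℕ) (h : k ≤ l) : EE θ m l e (m + k) = e k := by
  rcases Nat.eq_zero_or_pos k with h0 | h0
  · subst h0
    simp [EE]
  · unfold EE
    rw [if_neg (by omega), if_pos (by omega)]
    congr 1
    omega

lemma EE3 (θ : ℝ) (m l : ℕ) (e : ℕ → ℝ) (n : ℕ) (hl : e l = 0) (h : m + l ≤ n) :
    EE θ m l e n = 0 := by
  rcases Nat.eq_or_lt_of_le h with h0 | h0
  · rw [← h0, EE2 θ m l e l le_rfl, hl]
  · unfold EE
    rw [if_neg (by omega), if_neg (by omega)]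

end BLK92

open BLK92 in
theorem st_BLK (hP : ST_PATH) : ST_BLK := by
  intro p q τ t δ hq hcop hpq hτ hτt ht hδ hδ8 hG
  obtain ⟨l, e, hel, hrec, hup, n0, hn0, hlow⟩ := hG
  have hp : 0 < p := by omega
  have ht0 : 0 < t := by linarith
  have hpR : (0 : ℝ) < p := by exact_mod_cast hp
  have hqR : (0 : ℝ) < q := by exact_mod_cast hq
  set θ : ℝ := (q : ℝ) / p with hθ
  have hθ0 : 0 < θ := by positivity
  have hθ4 : θ ≤ 1 / 4 := by
    rw [hθ, div_le_iff₀ hpR]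
    have : (4 * q : ℝ) ≤ p := by exact_mod_cast hpq
    linarith
  have hθ1 : θ < 1 := by linarith
  have hpθ : (p : ℝ) * θ = q := by rw [hθ]; field_simp
  obtain ⟨m, hm⟩ : ∃ m : ℕ, θ ^ m * (t + δ) ≤ τ / 2 ∧ 1 ≤ m := by
    obtain ⟨m, hm⟩ := exists_pow_lt_of_lt_one (show 0 < τ / 2 / (t + δ) by positivity) hθ1
    refine ⟨m + 1, ?_, by omega⟩
    have h1 : θ ^ (m + 1) ≤ θ ^ m := pow_le_pow_of_le_one hθ0.le hθ1.le (Nat.le_succ m)
    have h2 : θ ^ (m + 1) < τ / 2 / (t + δ) := lt_of_le_of_lt h1 hm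
    rw [lt_div_iff₀ (by positivity)] at h2
    exact h2.le
  obtain ⟨m', hm'⟩ : ∃ m' : ℕ, θ ^ m' * τ ≤ δ := by
    obtain ⟨m', hm'⟩ := exists_pow_lt_of_lt_one (show 0 < δ / τ by positivity) hθ1
    refine ⟨m', ?_⟩
    rw [lt_div_iff₀ hτ] at hm'
    exact hm'.le
  obtain ⟨hm1, hm2⟩ := hm
  set Λ := m + l + m' with hΛ
  have hEr : ∀ n < Λ, ∃ s : ℤ, (p : ℝ) * EE θ m l e n = s + q * EE θ m l e (n + 1) := by
    intro n hn
    rcases lt_or_ge n m with h1 | h1
    · refine ⟨0, ?_⟩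
      rw [EE1 _ _ _ _ _ h1.le, EE1 _ _ _ _ _ h1]
      have : m - n = (m - (n + 1)) + 1 := by omega
      rw [this, pow_succ, ← hpθ]
      push_cast
      ring
    · rcases lt_or_ge n (m + l) with h2 | h2
      · obtain ⟨k, rfl⟩ := Nat.exists_eq_add_of_le h1
        obtain ⟨s, hs⟩ := hrec k (by omega)
        refine ⟨s, ?_⟩
        rw [EE2 _ _ _ _ _ (by omega), add_assoc, EE2 _ _ _ _ _ (by omega)]
        exact hs
      · refine ⟨0, ?_⟩
        rw [EE3 _ _ _ _ _ hel h2, EE3 _ _ _ _ _ hel (by omega)]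
        simp
  obtain ⟨ρ, hρ⟩ := hP p q hq hp hcop Λ (EE θ m l e) (EE3 _ _ _ _ _ hel (by omega)) hEr
  refine ⟨Λ, ρ, by omega, fun v hv => ?_⟩
  obtain ⟨v', z, hz0, hz⟩ := hρ v hv
  refine ⟨v', fun x hx => ?_⟩
  have hD : ∀ n, |θ ^ (Λ - n) * (x - v')| ≤ θ ^ (Λ - n) * τ := by
    intro n
    rw [abs_mul, abs_of_nonneg (by positivity)]
    exact mul_le_mul_of_nonneg_left hx (by positivity)
  have hDδ : ∀ n ≤ m + l, |θ ^ (Λ - n) * (x - v')| ≤ δ := by
    intro n hn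
    refine (hD n).trans (le_trans ?_ hm')
    exact mul_le_mul_of_nonneg_right
      (pow_le_pow_of_le_one hθ0.le hθ1.le (by omega)) hτ.le
  have hE : ∀ n ≤ m + l, |EE θ m l e n| ≤ t + δ := by
    intro n hn
    rcases lt_or_ge n m with h1 | h1
    · rw [EE1 _ _ _ _ _ h1.le, abs_mul, abs_of_nonneg (by positivity)]
      have h3 : θ ^ (m - n) ≤ 1 := pow_le_one₀ hθ0.le hθ1.le
      have h4 := hup 0 (Nat.zero_le _)
      have h5 := mul_le_mul_of_nonneg_right h3 (abs_nonneg (e 0))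
      linarith
    · obtain ⟨k, rfl⟩ := Nat.exists_eq_add_of_le h1
      rw [EE2 _ _ _ _ _ (by omega)]
      exact hup k (by omega)
  refine ⟨?_, ?_, ?_⟩
  · have h0 := hz x 0 (Nat.zero_le _)
    rw [hz0, Nat.sub_zero] at h0
    rw [h0]
    refine (abs_add_le _ _).trans ?_
    have h1 : |EE θ m l e 0| ≤ τ / 2 := by
      rw [EE1 _ _ _ _ _ (Nat.zero_le _), Nat.sub_zero, abs_mul, abs_of_nonneg (by positivity)]
      refine le_trans ?_ hm1
      exact mul_le_mul_of_nonneg_left (hup 0 (Nat.zero_le _)) (by positivity)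
    have h2 : |θ ^ Λ * (x - v')| ≤ τ / 2 := by
      have := hD 0
      rw [Nat.sub_zero] at this
      refine this.trans ?_
      have h3 : θ ^ Λ ≤ θ ^ 1 := pow_le_pow_of_le_one hθ0.le hθ1.le (by omega)
      rw [pow_one] at h3
      nlinarith
    linarith
  · intro j hj
    have h0 := hz x (Λ - j) (Nat.sub_le _ _)
    have hj' : Λ - (Λ - j) = j := by omega
    have hDj := hD (Λ - j)
    rw [hj'] at h0 hDj
    refine (nn_le _ (z (Λ - j))).trans ?_
    rw [h0]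
    refine (abs_add_le _ _).trans ?_
    rcases le_or_gt (Λ - j) (m + l) with h1 | h1
    · have h2 := hE _ h1
      have h3 := hDδ _ h1
      rw [hj'] at h3
      linarith
    · rw [EE3 _ _ _ _ _ hel h1.le, abs_zero, zero_add]
      have h3 : θ ^ j ≤ 1 := pow_le_one₀ hθ0.le hθ1.le
      nlinarith
  · refine ⟨Λ - (m + n0), Nat.sub_le _ _, ?_⟩
    have hle : m + n0 ≤ Λ := by omega
    have h0 := hz x (m + n0) hle
    have h3 := hDδ (m + n0) (by omega)
    rw [EE2 _ _ _ _ _ hn0] at h0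
    have h4 := hup n0 hn0
    have h5 : |θ ^ (Λ - (m + n0)) * x - z (m + n0)| ≤ 1 / 2 := by
      rw [h0]
      refine (abs_add_le _ _).trans ?_
      linarith
    refine le_trans ?_ (nn_ge h5)
    rw [h0]
    have h6 := abs_sub_abs_le_abs_sub (e n0) (-(θ ^ (Λ - (m + n0)) * (x - v')))
    rw [abs_neg, sub_neg_eq_add] at h6
    linarith

end Pool.Agent.Helper96.LC
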